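import Pool.Agent.V11294.Lu.CaseB

/-!
# MP_f2f5f5_nt: Lucas sequences at index `(p-1)/4` with `b ≡ 2 (mod 4)`
-/

set_option autoImplicit false

open Pool.Agent.V11294.Lu

namespace Pool.Agent.Results.MP_f2f5f5_nt.LucasQuarter

/-- Lucas sequences `U_n = U_n(b, -1)`, `V_n = V_n(b, -1)` (`LU`, `LV`) at the index `(p - 1) / 4`, modulo `p`,
for `b ≡ 2 (mod 4)`, in terms of `p = c ^ 2 + d ^ 2 = x ^ 2 + (1 + b ^ 2 / 4) y ^ 2`. -/
theorem result (p : ℕ) [Fact p.Prime] (hp4 : p % 4 = 1) (b : ℤ) (hb : b % 4 = 2)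
    (_hne : (p : ℤ) ≠ b ^ 2 / 4 + 1) (c d x y : ℤ) (h1 : (p : ℤ) = c ^ 2 + d ^ 2)
    (h2 : (p : ℤ) = x ^ 2 + (1 + b ^ 2 / 4) * y ^ 2) (hc : c % 4 = 1)
    (hx : OddPartOne x) (hy : OddPartOne y) :
    4 ∣ d ∧ 2 ∣ y ∧
    (y % 4 = 2 →
      (LU b ((p - 1) / 4) : ZMod p) = (-1) ^ ((b - 2) / 4 + d / 4) * ((y : ZMod p) / (x : ZMod p)) ∧
      (LV b ((p - 1) / 4) : ZMod p) = 0) ∧
    (4 ∣ y →
      (LU b ((p - 1) / 4) : ZMod p) = 0 ∧
      (LV b ((p - 1) / 4) : ZMod p) = 2 * (-1) ^ (d / 4 + y / 4)) := by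
  obtain ⟨bb, hbb⟩ : ∃ bb, b = 2 * bb := ⟨b / 2, by omega⟩
  have hbo : bb % 2 = 1 := by omega
  have hD : 1 + b ^ 2 / 4 = bb ^ 2 + 1 := by
    have : b ^ 2 = 4 * bb ^ 2 := by rw [hbb]; ring
    rw [this]; omega
  rw [hD] at h2
  obtain ⟨k, hk⟩ : ∃ k, bb = 2 * k + 1 := ⟨bb / 2, by omega⟩
  have hDe : bb ^ 2 + 1 = 2 * (2 * k ^ 2 + 2 * k + 1) := by rw [hk]; ring
  -- parities
  have hxo : x % 2 = 1 := by
    rcases Int.emod_two_eq_zero_or_one x with h | h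
    · exfalso
      obtain ⟨j, hj⟩ : ∃ j, x = 2 * j := ⟨x / 2, by omega⟩
      have : (p : ℤ) = 2 * (2 * j ^ 2 + (2 * k ^ 2 + 2 * k + 1) * y ^ 2) := by rw [h2, hDe, hj]; ring
      omega
    · exact h
  have hye : y % 2 = 0 := by
    rcases Int.emod_two_eq_zero_or_one y with h | h
    · exact h
    · exfalso
      have e1 := sq_odd hxo
      obtain ⟨j, hj⟩ : ∃ j, y = 2 * j + 1 := ⟨y / 2, by omega⟩
      have : (bb ^ 2 + 1) * y ^ 2 = 4 * ((k ^ 2 + k) * y ^ 2 + 2 * (j ^ 2 + j)) + 2 := by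
        rw [hDe, hj]; ring
      omega
  have hx1 := hx.odd hxo
  have hxp := x_ne h2 (by nlinarith [sq_nonneg bb]) hx.ne
  have hyp := y_ne h2 (by nlinarith [sq_nonneg bb]) hy.ne
  have hr := rt_sq h1
  obtain ⟨s1, s2⟩ := even_e h1 h2 rfl hyp
  have hp1 : (p - 1) / 4 = p / 4 := by omega
  have hδ := del_ne (p := p) h1 hxp hyp
  have h20 := two_ne (p := p) hp4
  have hsub : ((bb : ZMod p) + x * rt p c d / y) - ((bb : ZMod p) - x * rt p c d / y) = 2 * (x * rt p c d / y) := by ring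
  have hd : d % 4 = 0 := by
    rcases (by omega : y % 4 = 0 ∨ y % 4 = 2) with h | h
    · exact (caseA (κ := 1) h1 h2 hc hx1 h hy (Or.inl rfl) rfl (by omega)).1
    · exact (caseB h1 h2 hc hx1 h hy rfl hbo).1
  refine ⟨by omega, by omega, ?_, ?_⟩
  · intro h
    obtain ⟨-, h8, hv⟩ := caseB h1 h2 hc hx1 h hy rfl hbo
    obtain ⟨u1, u2⟩ := out01 hr s1 s2 (by omega) hv rfl
    rw [hp1, hbb]
    refine ⟨?_, u2⟩
    rw [hsub] at u1
    have e : (x * rt p c d / y) * (LU (2 * bb) (p / 4) : ZMod p) = (-1) ^ ((bb - 1) / 2 + d / 4) * rt p c d := by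
      apply mul_left_cancel₀ h20
      linear_combination u1
    have e2 := solve1 h1 hxp hyp e
    have e3 : (2 * bb - 2) / 4 = (bb - 1) / 2 := by omega
    rw [e2, e3]
  · intro h
    obtain ⟨-, h8, hv, -⟩ := caseA (κ := 1) h1 h2 hc hx1 (by omega) hy (Or.inl rfl) rfl (by omega)
    have hv := hv rfl
    rw [hp1, hbb]
    exact out00 hr s1 s2 (by rw [hsub]; exact mul_ne_zero h20 hδ) (by omega) hv rfl

end Pool.Agent.Results.MP_f2f5f5_nt.LucasQuarter
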